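import Mathlib
import Pool.Agent.Q258.PntTools

set_option autoImplicit false

/-!
# Equal prime counts in two consecutive windows after a prime `p ≤ p_n`

For all large `n` and all primes `p ≤ p_n` the window `(p + n, p + 2n]` contains fewer primes than
the window `(p, p + n]`.  The proof uses the prime number theorem with error `O(y / log^5 y)`: the
second difference of the logarithmic integral is at most `- n² / (Y log² Y)` with `Y = p + 2n`.
-/

namespace Pool.Agent.Results.MP_d7b30a_nt.FailsForAllLarge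

open Finset Filter Topology
open Pool.Agent.H442R2.EHI Pool.Agent.Q258.PntTools

theorem lis_add (x n : ℕ) (hx : 1 ≤ x) :
    lis (x + n) = lis x + ∑ i ∈ range n, 1 / Real.log ((x + 1 + i : ℕ) : ℝ) := by
  induction n with
  | zero => simp
  | succ n ih =>
    rw [sum_range_succ, ← add_assoc, ← add_assoc, ← ih]
    unfold lis
    rw [sum_Icc_succ_top (by omega)]
    congr 4
    ring

theorem second_diff (x n : ℕ) (hx : 2 ≤ x) :
    lis (x + n + n) - lis (x + n) - (lis (x + n) - lis x) ≤
      - ((n : ℝ) ^ 2 / (((x + n + n : ℕ) : ℝ) * Real.log ((x + n + n : ℕ) : ℝ) ^ 2)) := by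
  rw [lis_add (x + n) n (by omega), lis_add x n (by omega)]
  set Y : ℝ := ((x + n + n : ℕ) : ℝ) with hY
  have hY2 : 2 ≤ Y := by rw [hY]; exact_mod_cast (by omega : 2 ≤ x + n + n)
  have hLY : 0 < Real.log Y := Real.log_pos (by linarith)
  have h1 : ∀ i ∈ range n, (n : ℝ) / (Y * Real.log Y ^ 2) ≤
      1 / Real.log ((x + 1 + i : ℕ) : ℝ) - 1 / Real.log ((x + n + 1 + i : ℕ) : ℝ) := by
    intro i hi
    rw [mem_range] at hi
    set a : ℝ := ((x + 1 + i : ℕ) : ℝ) with ha
    have hb : ((x + n + 1 + i : ℕ) : ℝ) = a + n := by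
      rw [ha]; push_cast; ring
    rw [hb]
    have ha3 : 3 ≤ a := by rw [ha]; exact_mod_cast (by omega : 3 ≤ x + 1 + i)
    have hn0 : (0 : ℝ) ≤ n := Nat.cast_nonneg n
    have haY : a + n ≤ Y := by
      rw [← hb, hY]; exact_mod_cast (by omega : x + n + 1 + i ≤ x + n + n)
    have hla : 0 < Real.log a := Real.log_pos (by linarith)
    have hlb : 0 < Real.log (a + n) := Real.log_pos (by linarith)
    have hla' : Real.log a ≤ Real.log Y := Real.log_le_log (by linarith) (by linarith)
    have hlb' : Real.log (a + n) ≤ Real.log Y := Real.log_le_log (by linarith) haY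
    have h2 : (n : ℝ) / (a + n) ≤ Real.log (a + n) - Real.log a := by
      have h3 := Real.log_le_sub_one_of_pos (x := a / (a + n)) (by positivity)
      rw [Real.log_div (by linarith) (by linarith)] at h3
      have h4 : a / (a + n) - 1 = - ((n : ℝ) / (a + n)) := by
        field_simp; ring
      rw [h4] at h3
      linarith
    have h5 : 1 / Real.log a - 1 / Real.log (a + n) =
        (Real.log (a + n) - Real.log a) / (Real.log a * Real.log (a + n)) := by
      field_simp
    rw [h5]
    calc (n : ℝ) / (Y * Real.log Y ^ 2) = (n / Y) / (Real.log Y * Real.log Y) := by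
          field_simp
      _ ≤ (Real.log (a + n) - Real.log a) / (Real.log a * Real.log (a + n)) := by
          apply div_le_div₀
          · exact le_trans (by positivity) h2
          · refine le_trans ?_ h2
            exact div_le_div_of_nonneg_left hn0 (by linarith) haY
          · positivity
          · exact mul_le_mul hla' hlb' hlb.le hLY.le
  have h2 := Finset.card_nsmul_le_sum _ _ _ h1
  rw [card_range, nsmul_eq_mul, sum_sub_distrib] at h2
  have h3 : (n : ℝ) * (n / (Y * Real.log Y ^ 2)) = (n : ℝ) ^ 2 / (Y * Real.log Y ^ 2) := by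
    ring
  rw [h3] at h2
  linarith

/-- For all sufficiently large `n` and every prime `p ≤ p_n` the interval `(p + n, p + 2n]` contains
fewer primes than the interval `(p, p + n]`, so `π(p), π(p + n), π(p + 2n)` is not an arithmetic
progression.  (`Nat.nth Nat.Prime (n - 1)` is the `n`-th prime `p_n`.) -/
theorem result : ∃ N : ℕ, ∀ n : ℕ, N ≤ n → ∀ p : ℕ, p.Prime → p ≤ Nat.nth Nat.Prime (n - 1) →
    Nat.primeCounting (p + 2 * n) - Nat.primeCounting (p + n) <
      Nat.primeCounting (p + n) - Nat.primeCounting p := by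
  obtain ⟨C, hC, hunif⟩ := pi_err_unif 5
  obtain ⟨Y₀, hY₀⟩ := eventually_atTop.1 hunif
  have hlog : Tendsto (fun y : ℕ => Real.log y) atTop atTop :=
    Real.tendsto_log_atTop.comp tendsto_natCast_atTop_atTop
  have hev : ∀ᶠ n : ℕ in atTop, ∀ p : ℕ, p.Prime → p ≤ Nat.nth Nat.Prime (n - 1) →
      Nat.primeCounting (p + 2 * n) - Nat.primeCounting (p + n) <
        Nat.primeCounting (p + n) - Nat.primeCounting p := by
    filter_upwards [nth_le, hlog.eventually_gt_atTop (100 * C), hlog.eventually_ge_atTop 2,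
      eventually_ge_atTop (Y₀ + 2)] with n h1 h2 h3 hn p hp hpn
    have hp2 := hp.two_le
    have hn2 : (2 : ℝ) ≤ n := by exact_mod_cast (by omega : 2 ≤ n)
    have e : p + 2 * n = p + n + n := by ring
    rw [e]
    set Y : ℕ := p + n + n with hYd
    have hYn : (n : ℝ) ≤ (Y : ℝ) := by exact_mod_cast (by omega : n ≤ Y)
    have hY1 : (Y : ℝ) ≤ 5 * n * Real.log n := by
      have h4 : (p : ℝ) ≤ 4 * n * Real.log n := le_trans (by exact_mod_cast hpn) h1
      have h5 : (Y : ℝ) = p + n + n := by rw [hYd]; push_cast; ring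
      rw [h5]
      nlinarith
    have hYpos : (0 : ℝ) < Y := by linarith
    have hLn : 0 < Real.log n := by linarith
    have hLY : Real.log n ≤ Real.log Y := Real.log_le_log (by linarith) hYn
    have hLY0 : 0 < Real.log Y := by linarith
    have hu := hY₀ Y (by omega)
    have e1 := hu Y (by omega) le_rfl
    have e2 := hu (p + n) (by omega) (by omega)
    have e3 := hu p hp2 (by omega)
    have hsd := second_diff p n hp2
    rw [← hYd] at hsd
    set E : ℝ := C * ((Y : ℝ) / Real.log Y ^ 5) with hE
    have hmain : 4 * E < (n : ℝ) ^ 2 / ((Y : ℝ) * Real.log Y ^ 2) := by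
      rw [hE]
      have h6 : 4 * (C * ((Y : ℝ) / Real.log Y ^ 5)) =
          (4 * C * (Y : ℝ) ^ 2 / Real.log Y ^ 3) / ((Y : ℝ) * Real.log Y ^ 2) := by
        field_simp
      rw [h6]
      apply div_lt_div_of_pos_right _ (by positivity)
      rw [div_lt_iff₀ (by positivity)]
      have h7 : (Y : ℝ) ^ 2 ≤ (5 * n * Real.log n) ^ 2 := pow_le_pow_left₀ hYpos.le hY1 2
      have h8 : Real.log n ^ 3 ≤ Real.log Y ^ 3 := pow_le_pow_left₀ hLn.le hLY 3
      calc 4 * C * (Y : ℝ) ^ 2 ≤ 4 * C * (5 * n * Real.log n) ^ 2 := by gcongr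
        _ = (n : ℝ) ^ 2 * Real.log n ^ 2 * (100 * C) := by ring
        _ < (n : ℝ) ^ 2 * Real.log n ^ 2 * Real.log n := by
            apply mul_lt_mul_of_pos_left h2 (by positivity)
        _ = (n : ℝ) ^ 2 * Real.log n ^ 3 := by ring
        _ ≤ (n : ℝ) ^ 2 * Real.log Y ^ 3 := by gcongr
    rw [abs_le] at e1 e2 e3
    have hfin : (Nat.primeCounting Y : ℝ) + Nat.primeCounting p < 2 * Nat.primeCounting (p + n) := by
      linarith [e1.1, e1.2, e2.1, e2.2, e3.1, e3.2]
    have hfin' : Nat.primeCounting Y + Nat.primeCounting p < 2 * Nat.primeCounting (p + n) := by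
      exact_mod_cast hfin
    have hm1 : Nat.primeCounting p ≤ Nat.primeCounting (p + n) :=
      Nat.monotone_primeCounting (by omega)
    have hm2 : Nat.primeCounting (p + n) ≤ Nat.primeCounting Y :=
      Nat.monotone_primeCounting (by omega)
    omega
  obtain ⟨N, hN⟩ := eventually_atTop.1 hev
  exact ⟨N, hN⟩

end Pool.Agent.Results.MP_d7b30a_nt.FailsForAllLarge
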